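import Pool.Agent.Helper96.CPDefs
import Pool.Agent.Helper96.CPProof
import Pool.Agent.Helper96.CPExists

set_option autoImplicit false

universe u

open Pool.Agent.Helper96.CP

/-- The universal CP monoid exists, and for every universal CP monoid `U` the group of units is
generated by the images of the symmetric groups `S_d`, `d ≥ 2`, attached to the CP structures in the
set `𝕊(U)`. -/
theorem Pool.Agent.Results.MP_6189ff_al.UnitGeneration.result :
    (∃ (U : Type u) (_ : Monoid U) (S : CPStructure U 2), IsUniversal S) ∧
    ∀ (U : Type u) [Monoid U] (S : CPStructure U 2), IsUniversal S →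
      Subgroup.closure {u : Uˣ | ∃ (d : ℕ) (Φ : CPStructure U d) (σ : Equiv.Perm (Fin d)),
        2 ≤ d ∧ Generated S d Φ ∧ (u : U) = Φ.psi σ} = ⊤ :=
  ⟨⟨Univ, inferInstance, univStr, isUniversal_univStr⟩, fun _ _ S hS => closure_eq_top S hS⟩
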